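import Pool.Agent.H66.AV.TF
import Pool.Agent.H66.IP.TC

/-!
# Protocols which are not better than guessing: row HYL (the blocks of large scale)
-/

set_option autoImplicit false

namespace Pool.Agent.H63.AVH

open Finset Pool.Agent.H70.OQ Pool.Agent.H70.EH Pool.Agent.H78.XQ
open Pool.Agent.H66.IP (Local ins sp dm Good IsZ scl mBp m0p)
open Pool.Agent.H66.IQ Pool.Agent.H66.AV

theorem pf_HYL (hHY4 : T_HY4) (hMSB : Pool.Agent.H66.IP.T_MSB) (hSMS : Pool.Agent.H66.IP.T_SMS)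
    (hFDC : Pool.Agent.H66.IP.T_FDC) : T_HYL := by
  classical
  intro V E O hZ n g Φ hn hΦ
  have h0 : ∀ (p : {a // a ∈ E}) c, 0 ≤ m0p V p.1 c := fun p => (hMSB V p.1).1
  have h1 : ∀ p : {a // a ∈ E}, ∑ c, m0p V p.1 c = 1 := fun p => (hMSB V p.1).2.1
  have hm0 : ∀ (b : Bool) (p : {a // a ∈ E}) c, 0 ≤ mBp V p.1 b c := fun b p =>
    ((hMSB V p.1).2.2 b).1
  have hm1 : ∀ (b : Bool) (p : {a // a ∈ E}), ∑ c, mBp V p.1 b c ≤ 1 := fun b p =>
    ((hMSB V p.1).2.2 b).2.1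
  have hf : ∀ (i j : {a // a ∈ E})
      (P : ∀ p : {a // a ∈ E}, CP (dm V) p.1) (c : CP (dm V) j.1), scl V i.1 ≤ scl V j.1 →
      decide ((V i.1.1).acc i.1.2 (O (Function.update P j c) g)) =
        decide ((V i.1.1).acc i.1.2 (O P g)) := by
    intro i j P c hij
    exact decide_eq_decide.2 (hFDC V E O hZ P g i.1 j.1 j.2 c hij)
  have h2 := (hHY4 {a // a ∈ E} (fun p => CP (dm V) p.1) (fun p => scl V p.1)
    (fun b p c => mBp V p.1 b c)
    (fun P p => decide ((V p.1.1).acc p.1.2 (O P g))) hm0 hm1 hf).2 n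
    (fun p c => m0p V p.1 c) Φ (fun p => (1 / 8) ^ scl V p.1) h0
    (fun p => (h1 p).le) (fun p => by positivity)
    (fun b p P hp => hΦ P p.1 p.2 b hp)
  have h4 : ∑ p ∈ univ.filter (fun p : {a // a ∈ E} => n < scl V p.1),
      (1 / 8 : ℝ) ^ scl V p.1 ≤ (1 / 4) ^ n := by
    rw [Finset.sum_filter,
      Finset.sum_coe_sort E (fun p => if n < scl V p then (1 / 8 : ℝ) ^ scl V p else 0),
      ← Finset.sum_filter]
    exact hSMS V (E.filter fun p => n < scl V p) n hn fun p hp => (Finset.mem_filter.1 hp).2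
  unfold Pool.Agent.H66.AV.wgl Pool.Agent.H66.AV.wgt
  exact h2.trans h4

end Pool.Agent.H63.AVH
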